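import Pool.Agent.Q259.NCSign.Lin

/-!
# Operators on a super vector space and the zeros and poles of their zeta functions
-/

set_option autoImplicit false

open Polynomial

namespace Pool.Agent.Q73.ZD

open Pool.Agent.Q259.NCSign

section

variable {K : Type*} [Field K]

/-- The sum of the `m`-th powers of the zeros of the polynomial `B` (with multiplicities, in an
algebraic closure), that is the trace of the multiplication by `x ^ m` on `K[x] / (B(x))`. -/
noncomputable def psum (B : K[X]) (m : ℕ) : K :=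
  Algebra.trace K (AdjoinRoot B) (AdjoinRoot.root B ^ m)

/-- The sum of the values of a polynomial at the zeros of `B`. -/
noncomputable def ptr (B : K[X]) : K[X] →ₗ[K] K :=
  (Algebra.trace K (AdjoinRoot B)).comp (AdjoinRoot.mkₐ B).toLinearMap

lemma ptr_apply (B P : K[X]) : ptr B P = Algebra.trace K (AdjoinRoot B) (AdjoinRoot.mk B P) := rfl

lemma ptr_X_pow (B : K[X]) (m : ℕ) : ptr B (X ^ m) = psum B m := by
  rw [ptr_apply, map_pow, AdjoinRoot.mk_X, psum]

lemma ptr_of_dvd {B P : K[X]} (h : B ∣ P) : ptr B P = 0 := by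
  rw [ptr_apply, AdjoinRoot.mk_eq_zero.2 h, map_zero]

lemma trace_one (B : K[X]) (hB : B.Monic) :
    Algebra.trace K (AdjoinRoot B) 1 = (B.natDegree : K) := by
  have h1 := Algebra.trace_algebraMap (R := K) (S := AdjoinRoot B) (1 : K)
  rw [map_one] at h1
  rw [h1, (AdjoinRoot.powerBasis hB.ne_zero).finrank, AdjoinRoot.powerBasis_dim]
  simp

lemma ptr_of_dvd_sub {B P : K[X]} (hB : B.Monic) (h : B ∣ 1 - P) : ptr B P = (B.natDegree : K) := by
  have h1 : AdjoinRoot.mk B P = 1 := by
    have h2 := AdjoinRoot.mk_eq_zero.2 h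
    rw [map_sub, map_one, sub_eq_zero] at h2
    exact h2.symm
  rw [ptr_apply, h1, trace_one B hB]

lemma exists_coprime_part (W : K[X]) : ∀ (d : ℕ) (μ : K[X]), μ ≠ 0 → μ.natDegree ≤ d →
    ∃ (n : ℕ) (H : K[X]), μ ∣ W ^ n * H ∧ IsCoprime H W := by
  classical
  intro d
  induction d with
  | zero =>
    intro μ hμ hd
    refine ⟨0, μ, by simp, ?_⟩
    have h1 : IsUnit μ := by
      rw [Polynomial.isUnit_iff_degree_eq_zero, Polynomial.degree_eq_natDegree hμ]
      exact_mod_cast Nat.le_zero.1 hd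
    obtain ⟨w, rfl⟩ := h1
    exact ⟨(↑w⁻¹ : K[X]), 0, by simp⟩
  | succ d ih =>
    intro μ hμ hd
    by_cases hc : IsCoprime μ W
    · exact ⟨0, μ, by simp, hc⟩
    · obtain ⟨g, hg⟩ : ∃ g, g = EuclideanDomain.gcd μ W := ⟨_, rfl⟩
      have hgu : ¬ IsUnit g := by
        rw [hg, EuclideanDomain.gcd_isUnit_iff]
        exact hc
      obtain ⟨μ', hμ'⟩ : g ∣ μ := by rw [hg]; exact EuclideanDomain.gcd_dvd_left _ _
      have hgW : g ∣ W := by rw [hg]; exact EuclideanDomain.gcd_dvd_right _ _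
      have hg0 : g ≠ 0 := by rintro rfl; exact hμ (by rw [hμ', zero_mul])
      have hμ0 : μ' ≠ 0 := by rintro rfl; exact hμ (by rw [hμ', mul_zero])
      have hdg : 1 ≤ g.natDegree := by
        rw [Nat.one_le_iff_ne_zero]
        intro h0
        apply hgu
        rw [Polynomial.isUnit_iff_degree_eq_zero, Polynomial.degree_eq_natDegree hg0, h0]
        rfl
      have hdeg : μ.natDegree = g.natDegree + μ'.natDegree := by
        rw [hμ', Polynomial.natDegree_mul hg0 hμ0]
      obtain ⟨n, H, h1, h2⟩ := ih μ' hμ0 (by omega)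
      refine ⟨n + 1, H, ?_, h2⟩
      rw [hμ', pow_succ']
      rw [mul_assoc]
      exact mul_dvd_mul hgW h1

end

section

variable {K V : Type*} [Field K] [CharZero K] [AddCommGroup V] [Module K V] [Module.Finite K V]

theorem trace_ptr {ε T : Module.End K V} {A B : K[X]}
    (h : ∀ m : ℕ, 1 ≤ m → LinearMap.trace K V (T ^ m * ε) = psum B m - psum A m) (Q : K[X]) :
    LinearMap.trace K V (aeval T (X * Q) * ε) = ptr B (X * Q) - ptr A (X * Q) := by
  induction Q using Polynomial.induction_on' with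
  | add P Q hP hQ => rw [mul_add, map_add, add_mul, map_add, hP, hQ, map_add, map_add]; ring
  | monomial n a =>
    rw [← C_mul_X_pow_eq_monomial]
    have e : (X : K[X]) * (C a * X ^ n) = a • X ^ (n + 1) := by
      rw [smul_eq_C_mul]; ring
    rw [e, map_smul, map_smul, map_smul, map_pow, aeval_X, smul_mul_assoc, map_smul,
      h _ (by omega), ptr_X_pow, ptr_X_pow, smul_eq_mul, smul_eq_mul, smul_eq_mul]
    ring

/-- The number of zeros and poles of the zeta function of `T` is at most the dimension, and in the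
case of equality the even projector is a polynomial in `T`. -/
theorem zeta_degree {ε T : Module.End K V} (hε : ε * ε = 1) (hT : ε * T = T * ε) {A B : K[X]}
    (hA : A.Monic) (hB : B.Monic) (hAB : IsCoprime A B) (hAX : IsCoprime A X)
    (hBX : IsCoprime B X)
    (h : ∀ m : ℕ, 1 ≤ m → LinearMap.trace K V (T ^ m * ε) = psum B m - psum A m) :
    A.natDegree + B.natDegree ≤ Module.finrank K V ∧
    (A.natDegree + B.natDegree = Module.finrank K V →
      ∃ P : K[X], aeval T P = (2 : K)⁻¹ • (1 + ε)) := by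
  have h2 : (2 : K) ≠ 0 := two_ne_zero
  have hint : IsIntegral K T := Algebra.IsIntegral.isIntegral T
  obtain ⟨n, H, hμ, hH⟩ := exists_coprime_part (X * A * B) _ (minpoly K T)
    (minpoly.ne_zero hint) le_rfl
  have hHX : IsCoprime H X := (hH.of_mul_right_left).of_mul_right_left
  have hHA : IsCoprime H A := (hH.of_mul_right_left).of_mul_right_right
  have hHB : IsCoprime H B := hH.of_mul_right_right
  have hdvd : ∀ P : K[X], (X * A * B) ^ (n + 1) * H ∣ P → aeval T P = 0 := by
    intro P hP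
    have h1 : minpoly K T ∣ P := by
      refine hμ.trans (dvd_trans ?_ hP)
      rw [pow_succ]
      exact ⟨X * A * B, by ring⟩
    obtain ⟨Q, rfl⟩ := h1
    rw [map_mul, minpoly.aeval, zero_mul]
  have cB : IsCoprime (B ^ (n + 1)) ((X * A) ^ (n + 1) * H) :=
    ((hBX.mul_right hAB.symm).pow).mul_right hHB.symm.pow_left
  have cA : IsCoprime (A ^ (n + 1)) ((X * B) ^ (n + 1) * H) :=
    ((hAX.mul_right hAB).pow).mul_right hHA.symm.pow_left
  obtain ⟨u, v, huv⟩ := cB
  obtain ⟨u', v', huv'⟩ := cA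
  obtain ⟨P1, hP1⟩ : ∃ P1 : K[X], P1 = v * ((X * A) ^ (n + 1) * H) := ⟨_, rfl⟩
  obtain ⟨P2, hP2⟩ : ∃ P2 : K[X], P2 = v' * ((X * B) ^ (n + 1) * H) := ⟨_, rfl⟩
  have hP1' : 1 - P1 = u * B ^ (n + 1) := by rw [← huv, hP1]; ring
  have hP2' : 1 - P2 = u' * A ^ (n + 1) := by rw [← huv', hP2]; ring
  obtain ⟨e1, he1⟩ : ∃ e1, e1 = aeval T P1 := ⟨_, rfl⟩
  obtain ⟨e2, he2⟩ : ∃ e2, e2 = aeval T P2 := ⟨_, rfl⟩
  have i1 : e1 * e1 = e1 := by
    rw [← sub_eq_zero, he1, ← map_mul, ← map_sub]
    apply hdvd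
    have : P1 * P1 - P1 = -(P1 * (1 - P1)) := by ring
    rw [this, hP1', hP1]
    exact ⟨-(v * u), by rw [mul_pow, mul_pow, mul_pow]; ring⟩
  have i2 : e2 * e2 = e2 := by
    rw [← sub_eq_zero, he2, ← map_mul, ← map_sub]
    apply hdvd
    have : P2 * P2 - P2 = -(P2 * (1 - P2)) := by ring
    rw [this, hP2', hP2]
    exact ⟨-(v' * u'), by rw [mul_pow, mul_pow, mul_pow]; ring⟩
  have i12 : e1 * e2 = 0 := by
    rw [he1, he2, ← map_mul]
    apply hdvd
    rw [hP1, hP2]
    exact ⟨v * v' * X ^ (n + 1) * H, by rw [mul_pow, mul_pow, mul_pow, mul_pow]; ring⟩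
  have i21 : e2 * e1 = 0 := by
    rw [he1, he2, ← map_mul, mul_comm, map_mul, ← he1, ← he2, i12]
  -- commutation with the parity
  have hcomm : ∀ P : K[X], Commute ε (aeval T P) := by
    intro P
    have hT' : Commute ε T := hT
    induction P using Polynomial.induction_on' with
    | add P Q hP hQ => rw [map_add]; exact hP.add_right hQ
    | monomial n a =>
      rw [aeval_monomial]
      exact (Algebra.commute_algebraMap_right a ε).mul_right (hT'.pow_right n)
  obtain ⟨π, hπ⟩ : ∃ π : Module.End K V, π = (2 : K)⁻¹ • (1 + ε) := ⟨_, rfl⟩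
  obtain ⟨π', hπ'⟩ : ∃ π' : Module.End K V, π' = (2 : K)⁻¹ • (1 - ε) := ⟨_, rfl⟩
  have hππ : π * π = π := by
    rw [hπ, smul_mul_smul_comm, mul_add, add_mul, add_mul, hε]
    simp only [one_mul, mul_one]
    have : (1 + ε + (ε + 1) : Module.End K V) = (2 : K) • (1 + ε) := by
      rw [two_smul]; abel
    rw [this, smul_smul]
    congr 1
    field_simp
  have hππ' : π' * π' = π' := by
    rw [hπ', smul_mul_smul_comm, mul_sub, sub_mul, sub_mul, hε]
    simp only [one_mul, mul_one]
    have : (1 - ε - (ε - 1) : Module.End K V) = (2 : K) • (1 - ε) := by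
      rw [two_smul]; abel
    rw [this, smul_smul]
    congr 1
    field_simp
  have hεπ : π - π' = ε := by
    rw [hπ, hπ', ← smul_sub]
    have : (1 + ε - (1 - ε) : Module.End K V) = (2 : K) • ε := by
      rw [two_smul]; abel
    rw [this, smul_smul, inv_mul_cancel₀ h2, one_smul]
  have hsum : π + π' = 1 := by
    rw [hπ, hπ', ← smul_add]
    have : (1 + ε + (1 - ε) : Module.End K V) = (2 : K) • 1 := by
      rw [two_smul]; abel
    rw [this, smul_smul, inv_mul_cancel₀ h2, one_smul]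
  have cπ : ∀ P : K[X], Commute π (aeval T P) := fun P => by
    rw [hπ]
    exact ((Commute.one_left _).add_left (hcomm P)).smul_left _
  have cπ' : ∀ P : K[X], Commute π' (aeval T P) := fun P => by
    rw [hπ']
    exact ((Commute.one_left _).sub_left (hcomm P)).smul_left _
  have comm_idem : ∀ {x y : Module.End K V}, x * x = x → y * y = y → Commute x y →
      (x * y) * (x * y) = x * y := by
    intro x y hx hy hxy
    rw [mul_assoc, ← mul_assoc y, ← hxy.eq, mul_assoc, hy, ← mul_assoc, hx]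
  have t1 : LinearMap.trace K V (e1 * ε) = (B.natDegree : K) := by
    obtain ⟨Q, hQ⟩ : ∃ Q, P1 = X * Q :=
      ⟨v * (X ^ n * A ^ (n + 1) * H), by rw [hP1, mul_pow, pow_succ X]; ring⟩
    have h1 := trace_ptr h Q
    rw [← hQ] at h1
    rw [he1, h1, ptr_of_dvd_sub hB ⟨u * B ^ n, by rw [hP1', pow_succ]; ring⟩,
      ptr_of_dvd ⟨v * (X ^ (n + 1) * A ^ n * H), by rw [hP1, mul_pow, pow_succ A]; ring⟩,
      sub_zero]
  have t2 : LinearMap.trace K V (e2 * ε) = -(A.natDegree : K) := by
    obtain ⟨Q, hQ⟩ : ∃ Q, P2 = X * Q :=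
      ⟨v' * (X ^ n * B ^ (n + 1) * H), by rw [hP2, mul_pow, pow_succ X]; ring⟩
    have h1 := trace_ptr h Q
    rw [← hQ] at h1
    rw [he2, h1, ptr_of_dvd_sub hA ⟨u' * A ^ n, by rw [hP2', pow_succ]; ring⟩,
      ptr_of_dvd ⟨v' * (X ^ (n + 1) * B ^ n * H), by rw [hP2, mul_pow, pow_succ B]; ring⟩,
      zero_sub]
  obtain ⟨x, hx, hx0⟩ := idem_trace (comm_idem i1 hππ (by rw [he1]; exact (cπ P1).symm))
  obtain ⟨y, hy, hy0⟩ := idem_trace (comm_idem i1 hππ' (by rw [he1]; exact (cπ' P1).symm))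
  obtain ⟨x', hx', hx0'⟩ := idem_trace (comm_idem i2 hππ (by rw [he2]; exact (cπ P2).symm))
  obtain ⟨y', hy', hy0'⟩ := idem_trace (comm_idem i2 hππ' (by rw [he2]; exact (cπ' P2).symm))
  obtain ⟨z, hz, hz0⟩ := idem_trace (f := 1 - e1 - e2) (by
    have : (1 - e1 - e2) * (1 - e1 - e2) = 1 - e1 - e2 - e1 - e2 + e1 * e1 + e2 * e2 +
        e1 * e2 + e2 * e1 := by noncomm_ring
    rw [this, i1, i2, i12, i21]
    abel)
  have s1 : (x : K) - y = B.natDegree := by
    rw [← hx, ← hy, ← t1, ← map_sub, ← mul_sub, hεπ]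
  have s2 : (x' : K) - y' = -(A.natDegree : K) := by
    rw [← hx', ← hy', ← t2, ← map_sub, ← mul_sub, hεπ]
  have s3 : (Module.finrank K V : K) = x + y + (x' + y') + z := by
    rw [← hx, ← hy, ← hx', ← hy', ← hz, ← map_add, ← mul_add, hsum, mul_one, ← map_add,
      ← mul_add, hsum, mul_one, ← map_add, ← map_add]
    have : e1 + e2 + (1 - e1 - e2) = 1 := by abel
    rw [this, LinearMap.trace_one]
  have r1 : x = B.natDegree + y := by
    have : (x : K) = B.natDegree + y := by rw [← s1]; ring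
    exact_mod_cast this
  have r2 : y' = A.natDegree + x' := by
    have : (y' : K) = A.natDegree + x' := by
      have h3 : (A.natDegree : K) = -((x' : K) - y') := by rw [s2, neg_neg]
      rw [h3]; ring
    exact_mod_cast this
  have r3 : Module.finrank K V = x + y + (x' + y') + z := by exact_mod_cast s3
  refine ⟨by omega, fun heq => ⟨P1, ?_⟩⟩
  have z1 : y = 0 := by omega
  have z2 : x' = 0 := by omega
  have z3 : z = 0 := by omega
  have w1 := hy0 z1
  have w2 := hx0' z2
  have w3 := hz0 z3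
  rw [← he1, ← hπ]
  have w4 : e1 + e2 = 1 := by
    rw [← sub_eq_zero, ← neg_eq_zero]
    rw [← w3]; abel
  calc e1 = e1 * (π + π') := by rw [hsum, mul_one]
    _ = e1 * π + e2 * π := by rw [mul_add, w1, w2]
    _ = π := by rw [← add_mul, w4, one_mul]

end

end Pool.Agent.Q73.ZD
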