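import Pool.Agent.Q73.ZD.Lin
import Pool.Agent.Q259.NCSign.Crit

/-!
# The sign conjecture and the zeta functions of endomorphisms
-/

set_option autoImplicit false
set_option linter.unusedSectionVars false
set_option backward.isDefEq.respectTransparency false
set_option backward.defeqAttrib.useBackward true

open CategoryTheory Limits MonoidalCategory Polynomial

namespace Pool.Agent.Q73.ZD

open Pool.Agent.Y112.SR Pool.Agent.Q259.NCSign

universe v u w

section

variable {K : Type*} [Field K] [CharZero K]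

lemma psum_pow_sub (c : K) (d m : ℕ) : psum ((X - C c) ^ d) m = d * c ^ m := by
  obtain ⟨B, hB⟩ : ∃ B : K[X], B = (X - C c) ^ d := ⟨_, rfl⟩
  have hm : B.Monic := by rw [hB]; exact (monic_X_sub_C c).pow d
  have hdeg : B.natDegree = d := by rw [hB, natDegree_pow, natDegree_X_sub_C, mul_one]
  rw [← hB]
  have h1 : ptr B (X ^ m - C (c ^ m)) = 0 := by
    rw [ptr_apply]
    have hn : IsNilpotent (AdjoinRoot.mk B (X ^ m - C (c ^ m))) := by
      refine ⟨d, ?_⟩
      rw [← map_pow, AdjoinRoot.mk_eq_zero, hB, map_pow]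
      exact pow_dvd_pow_of_dvd (sub_dvd_pow_sub_pow _ _ m) d
    have h2 : IsNilpotent (Algebra.lmul K (AdjoinRoot B)
        (AdjoinRoot.mk B (X ^ m - C (c ^ m)))) := hn.map _
    have := (AdjoinRoot.powerBasis hm.ne_zero).finite
    exact (LinearMap.isNilpotent_trace_of_isNilpotent h2).eq_zero
  rw [map_sub, ptr_X_pow, sub_eq_zero] at h1
  rw [h1, ptr_apply]
  have h3 : AdjoinRoot.mk B (C (c ^ m)) = (c ^ m) • (1 : AdjoinRoot B) := by
    rw [AdjoinRoot.mk_C, Algebra.smul_def, mul_one]
    rfl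
  rw [h3, map_smul, trace_one B hm, hdeg, smul_eq_mul, mul_comm]

end

section

variable {C : Type u} [Category.{v} C] [Preadditive C] [Linear ℚ C] [MonoidalCategory C]
  [SymmetricCategory C] [RightRigidCategory C] {K : Type w} [Field K] (R : SuperRealisation C K)

/-- The zeta function `exp (∑ tr (f ^ m) t ^ m / m)` of the endomorphism `f` is, in lowest terms,
the quotient of the product of the `1 - a t` by the product of the `1 - b t`, where `a` runs over
the zeros of `A` and `b` over the zeros of `B`: the polynomials `A` and `B` are monic, coprime to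
each other and to `X`, and `tr (f ^ m)` is the sum of the `m`-th powers of the zeros of `B` minus
the sum of the `m`-th powers of the zeros of `A`, for all `m ≥ 1`. -/
structure HasZeta {M : C} (f : End M) (A B : K[X]) : Prop where
  monic_num : A.Monic
  monic_den : B.Monic
  coprime : IsCoprime A B
  num_ne : IsCoprime A X
  den_ne : IsCoprime B X
  traces : ∀ m : ℕ, 1 ≤ m → ∃ q : ℚ, ctr (f ^ m : End M) = q • 𝟙 (𝟙_ C) ∧
    (q : K) = psum B m - psum A m

/-- The number of zeros plus the number of poles of the zeta function is at most the dimension of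
`R(M)`. -/
def ZetaBound {M : C} (f : End M) : Prop :=
  ∀ A B : K[X], HasZeta (K := K) f A B →
    A.natDegree + B.natDegree ≤ Module.finrank K (R.H.obj M)

/-- The number of zeros plus the number of poles of the zeta function of `f` is equal to the
dimension of `R(M)`. -/
def FullZeta {M : C} (f : End M) : Prop :=
  ∃ A B : K[X], HasZeta (K := K) f A B ∧
    A.natDegree + B.natDegree = Module.finrank K (R.H.obj M)

/-- The even projector (half of `1` plus the parity) is a polynomial in `R(f)`. -/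
def EvenIsPolynomial {M : C} (f : End M) : Prop :=
  ∃ P : K[X], (2 : K) • aeval (opHom R M f) P = 1 + sgn R M

variable {R}

lemma op_traces {M : C} {f : End M} {A B : K[X]} (h : HasZeta (K := K) f A B) (m : ℕ)
    (hm : 1 ≤ m) : LinearMap.trace K (R.H.obj M) (opHom R M f ^ m * sgn R M) =
      psum B m - psum A m := by
  obtain ⟨q, h1, h2⟩ := h.traces m hm
  have h3 := trace_of_ctr R h1
  have e1 : (R.H.map (f ^ m : End M)).hom = opHom R M f ^ m := map_pow (opHom R M) f m
  have e2 : (R.H.map (f ^ m : End M) ≫ R.par M).hom =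
      sgn R M * (R.H.map (f ^ m : End M)).hom := rfl
  have hTo : opHom R M f ∈ ops R M := ⟨f, rfl⟩
  have e3 : sgn R M * opHom R M f ^ m = opHom R M f ^ m * sgn R M :=
    (Commute.pow_right (sgn_comm R hTo) m)
  rw [e2, e1, e3] at h3
  rw [h3, h2]

lemma zeta_bound {M : C} {f : End M} {A B : K[X]} (h : HasZeta (K := K) f A B) :
    A.natDegree + B.natDegree ≤ Module.finrank K (R.H.obj M) ∧
    (A.natDegree + B.natDegree = Module.finrank K (R.H.obj M) →
      ∃ P : K[X], (2 : K) • aeval (opHom R M f) P = 1 + sgn R M) := by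
  have hK := R_charZero R
  have h0 := R.finite M
  have hTo : opHom R M f ∈ ops R M := ⟨f, rfl⟩
  have h1 := zeta_degree (sgn_sq R M) (sgn_comm R hTo) h.monic_num h.monic_den h.coprime
    h.num_ne h.den_ne (op_traces (R := R) h)
  refine ⟨h1.1, fun he => ?_⟩
  obtain ⟨P, hP⟩ := h1.2 he
  exact ⟨P, by rw [hP, two_smul_half]⟩

lemma cplus_of_zeta (hunit : ∀ c : 𝟙_ C ⟶ 𝟙_ C, ∃ q : ℚ, c = q • 𝟙 (𝟙_ C)) {M : C} {f : End M}
    {A B : K[X]} (h : HasZeta (K := K) f A B)
    (he : A.natDegree + B.natDegree = Module.finrank K (R.H.obj M)) : R.CPlus M := by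
  obtain ⟨P, hP⟩ := (zeta_bound (R := R) h).2 he
  refine cplus_of_span R hunit ⟨aeval (opHom R M f) P, ?_, hP⟩
  rw [← mem_opsA]
  have h1 : aeval (opHom R M f) P ∈ Algebra.adjoin K {opHom R M f} :=
    aeval_mem_adjoin_singleton K _
  refine Algebra.adjoin_mono ?_ h1
  rintro _ rfl
  exact ⟨f, rfl⟩

lemma zeta_of_cplus (hunit : ∀ c : 𝟙_ C ⟶ 𝟙_ C, ∃ q : ℚ, c = q • 𝟙 (𝟙_ C)) {M : C}
    (h : R.CPlus M) : ∃ (f : End M) (A B : K[X]), HasZeta (K := K) f A B ∧
      A.natDegree + B.natDegree = Module.finrank K (R.H.obj M) := by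
  have hK := R_charZero R
  have h2 : (2 : K) ≠ 0 := two_ne_zero
  have h0 := R.finite M
  obtain ⟨z, hz⟩ : ∃ z : End M, (2 : K) • (R.H.map (z : M ⟶ M)).hom = 1 + sgn R M :=
    (cplus_iff_hom R).1 h
  obtain ⟨π, hπ⟩ : ∃ π : Module.End K (R.H.obj M), π = (2 : K)⁻¹ • (1 + sgn R M) := ⟨_, rfl⟩
  have hzπ : opHom R M z = π := by
    rw [hπ, ← hz, smul_smul, inv_mul_cancel₀ h2, one_smul]
    rfl
  have hππ : π * π = π := by rw [hπ]; exact half_idem R
  obtain ⟨p, hp⟩ : ∃ p, p = Module.finrank K (LinearMap.ker (sgn R M - 1)) := ⟨_, rfl⟩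
  have hpD : p ≤ Module.finrank K (R.H.obj M) := by
    rw [hp]; exact Submodule.finrank_le _
  obtain ⟨r, hr⟩ := Nat.exists_eq_add_of_le hpD
  have htπ : LinearMap.trace K (R.H.obj M) π = (p : K) := by rw [hπ, hp]; exact trace_half R M
  have hsπ : π * sgn R M = π := by
    rw [hπ, smul_mul_assoc, add_mul, one_mul, sgn_sq, add_comm]
  have hs : sgn R M = (2 : K) • π - 1 := by
    rw [hπ, two_smul_half]; abel
  have hts : LinearMap.trace K (R.H.obj M) (sgn R M) = (p : K) - r := by
    rw [hs, map_sub, map_smul, htπ, LinearMap.trace_one, hr, smul_eq_mul]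
    push_cast
    ring
  obtain ⟨f, hf⟩ : ∃ f : End M, f = 1 + z := ⟨_, rfl⟩
  have hop : opHom R M f = 1 + π := by rw [hf, map_add, map_one, hzπ]
  have hpow : ∀ m : ℕ, (1 + π) ^ m = 1 + ((2 : K) ^ m - 1) • π := by
    intro m
    induction m with
    | zero => simp
    | succ m ih =>
      rw [pow_succ, ih, add_mul, one_mul, smul_mul_assoc, mul_add, mul_one, hππ, ← two_smul K π,
        smul_smul, add_assoc]
      congr 1
      nth_rewrite 1 [← one_smul K π]
      rw [← add_smul]
      congr 1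
      ring
  refine ⟨f, (X - Polynomial.C 1) ^ r, (X - Polynomial.C 2) ^ p,
    ⟨(monic_X_sub_C _).pow _, (monic_X_sub_C _).pow _, ?_, ?_, ?_, ?_⟩, ?_⟩
  · apply IsCoprime.pow
    exact isCoprime_X_sub_C_of_isUnit_sub (by norm_num)
  · have h3 : IsCoprime (X - Polynomial.C (1 : K)) (X - Polynomial.C (0 : K)) :=
      isCoprime_X_sub_C_of_isUnit_sub (by norm_num)
    rw [map_zero, sub_zero] at h3
    exact h3.pow_left
  · have h3 : IsCoprime (X - Polynomial.C (2 : K)) (X - Polynomial.C (0 : K)) :=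
      isCoprime_X_sub_C_of_isUnit_sub (by norm_num)
    rw [map_zero, sub_zero] at h3
    exact h3.pow_left
  · intro m hm
    obtain ⟨q, hq⟩ := hunit (ctr (f ^ m : End M))
    refine ⟨q, hq, ?_⟩
    have h3 := trace_of_ctr R hq
    have e1 : (R.H.map (f ^ m : End M)).hom = opHom R M f ^ m := map_pow (opHom R M) f m
    have e2 : (R.H.map (f ^ m : End M) ≫ R.par M).hom =
        sgn R M * (R.H.map (f ^ m : End M)).hom := rfl
    have hTo : opHom R M f ∈ ops R M := ⟨f, rfl⟩
    have e3 : sgn R M * opHom R M f ^ m = opHom R M f ^ m * sgn R M :=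
      (Commute.pow_right (sgn_comm R hTo) m)
    rw [e2, e1, e3, hop, hpow, add_mul, one_mul, smul_mul_assoc, hsπ, map_add, map_smul, hts,
      htπ] at h3
    rw [← h3, psum_pow_sub, psum_pow_sub, smul_eq_mul, one_pow]
    ring
  · rw [natDegree_pow, natDegree_pow, natDegree_X_sub_C, natDegree_X_sub_C, hr]
    ring

end

end Pool.Agent.Q73.ZD
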